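import Pool.Agent.H55.CU.Targets

/-!
# The slope of the copolymer critical curve (board cou_modules): row BKP
-/

set_option autoImplicit false

namespace Pool.Agent.H11.CU

open Pool.Agent.H55.CU

private theorem sum_bound (a : ℕ) : ∀ s : ℕ,
    (a ≤ 8 * 2 ^ s → ∑ i ∈ Finset.range s,
      (if a ≤ 8 * 2 ^ i then 1200 * (1 + (a : ℝ)) / 2 ^ i else 0) ≤
        1200 * (18 - 2 * (1 + (a : ℝ)) / 2 ^ s)) ∧
    (¬ a ≤ 8 * 2 ^ s → ∑ i ∈ Finset.range s,
      (if a ≤ 8 * 2 ^ i then 1200 * (1 + (a : ℝ)) / 2 ^ i else 0) = 0) := by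
  intro s
  induction s with
  | zero =>
    constructor
    · intro h
      have h1 : (a : ℝ) ≤ 8 := by
        have : a ≤ 8 := by simpa using h
        exact_mod_cast this
      rw [Finset.sum_range_zero, pow_zero]
      linarith
    · intro _
      rw [Finset.sum_range_zero]
  | succ s ih =>
    have hp : (0 : ℝ) < 2 ^ s := by positivity
    have hp1 : (1 : ℝ) ≤ 2 ^ s := one_le_pow₀ (by norm_num)
    have hss : (2 : ℕ) ^ (s + 1) = 2 * 2 ^ s := by rw [pow_succ]; ring
    have hhalf : 2 * (1 + (a : ℝ)) / 2 ^ (s + 1) = (1 + (a : ℝ)) / 2 ^ s := by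
      rw [pow_succ]
      field_simp
    rw [Finset.sum_range_succ]
    by_cases h : a ≤ 8 * 2 ^ s
    · have h1 := ih.1 h
      rw [if_pos h]
      refine ⟨fun _ => ?_, fun h2 => absurd (by omega) h2⟩
      rw [hhalf]
      have e1 : 2 * (1 + (a : ℝ)) / 2 ^ s = (1 + (a : ℝ)) / 2 ^ s + (1 + (a : ℝ)) / 2 ^ s := by
        ring
      have e2 : 1200 * (1 + (a : ℝ)) / 2 ^ s = 1200 * ((1 + (a : ℝ)) / 2 ^ s) := by ring
      rw [e1] at h1
      rw [e2]
      linarith
    · have h1 := ih.2 h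
      rw [if_neg h, h1, add_zero]
      refine ⟨fun h2 => ?_, fun _ => rfl⟩
      rw [hhalf]
      have h3 : (a : ℝ) ≤ 16 * 2 ^ s := by
        have h4 : a ≤ 16 * 2 ^ s := by omega
        exact_mod_cast h4
      have h5 : (1 + (a : ℝ)) / 2 ^ s ≤ 17 := by
        rw [div_le_iff₀ hp]
        linarith
      linarith

private theorem sum_le (a s : ℕ) : ∑ i ∈ Finset.range s,
    (if a ≤ 8 * 2 ^ i then 1200 * (1 + (a : ℝ)) / 2 ^ i else 0) ≤ 21600 := by
  have hp : (0 : ℝ) < 2 ^ s := by positivity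
  have ha : (0 : ℝ) ≤ a := Nat.cast_nonneg a
  by_cases h : a ≤ 8 * 2 ^ s
  · have h1 := (sum_bound a s).1 h
    have h2 : 0 ≤ 2 * (1 + (a : ℝ)) / 2 ^ s := by positivity
    linarith
  · rw [(sum_bound a s).2 h]
    norm_num

private theorem sum_pow_le (c1 : ℝ) (hc : 0 ≤ c1) (s : ℕ) :
    ∑ i ∈ Finset.range s, c1 * 2 ^ i ≤ c1 * 2 ^ s := by
  induction s with
  | zero => simpa using hc
  | succ s ih =>
    rw [Finset.sum_range_succ, pow_succ]
    linarith

theorem pf_BKP : T_BKP := by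
  intro c1 s a hc ha
  have hr : ∀ i, 0 ≤ rr c1 i a := by
    intro i
    unfold rr
    have h1 : (0 : ℝ) ≤ if a ≤ 8 * 2 ^ i then 1200 * (1 + (a : ℝ)) / 2 ^ i else 0 := by
      split_ifs
      · positivity
      · exact le_refl _
    have h2 : 0 ≤ c1 * 2 ^ i := by positivity
    linarith
  have ha0 : ¬ a = 0 := by omega
  refine ⟨hr s, ?_, ?_, ?_⟩
  · unfold dd
    rw [if_neg ha0]
    have := Finset.sum_nonneg fun i (_ : i ∈ Finset.range s) => hr i
    linarith
  · unfold dd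
    rw [if_neg ha0]
    have h1 : ∑ i ∈ Finset.range s, rr c1 i a ≤ c1 * 2 ^ s + 21600 := by
      unfold rr
      rw [Finset.sum_add_distrib]
      exact add_le_add (sum_pow_le c1 hc s) (sum_le a s)
    linarith
  · unfold dd
    rw [if_neg ha0, if_neg ha0, Finset.sum_range_succ]
    ring

end Pool.Agent.H11.CU
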